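import Mathlib
import Pool.Agent.H563.RC.FinR

/-!
# Goldbach's problem in graphs on the primes without large independent sets

Let `R` be an arbitrary graph on the primes in which every `k` primes include two which are joined, for
instance the graph of the pairs of primes of the same colour in a colouring with `k - 1` colours. Almost
all integers `n` without small prime factors have the property that `2 n` is the sum of two different
primes which are joined, with the expected order of magnitude of representations. Everything is uniform
in the graph.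

The condition on the small prime factors cannot be omitted: if `l` is a fixed prime, join two primes if
their residues modulo `l` are both smaller or both not smaller than `l / 2` (modulo `4` if `l = 2`). Of any
three primes two are joined, and no `2 n` with `l ∣ n` is a sum of two distinct primes which are joined.

Proof. Equivalently, a dense set `Z` of integers without small prime factors contains, for many `k`-tuples
of primes, the midpoints of all the pairs. In a residue class `b` modulo `W`, `W` divisible by all the
small primes, the primes are close to constant in the sense of Fourier analysis and satisfy a restriction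
estimate, uniformly. The indicator function of the sums `m + m`, `m ∈ Z`, is replaced at the edges of the
complete graph, one edge after the other, by its average over a Bohr set (the restriction estimate), and
then the primes are replaced at the vertices by the interval (the average has a bounded algebra norm).
The midpoints of all pairs of `k` points of the interval belong to `Z` for many `k`-tuples, by Hilbert
cubes.
-/

set_option autoImplicit false

namespace Pool.Agent.Results.MP_7b7e48_nt.GraphsOnPrimes

open Pool.Agent.H563.RG (rough mem_rough)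
open Pool.Agent.H563.RC (repsR)

/-- For every `k` and every `ε > 0`, if `w` is large, then there is `δ > 0` such that for all large `X` and
for every relation `R` such that every set of `k` primes `≤ 2 X` contains primes `p < q` with `R p q`, all
the integers `n ≤ X` without a prime factor `≤ w`, with a proportion of at most `ε` of exceptions among
them, have at least `δ X / log ^ 2 X` representations `2 n = p + q` with primes `p < q` for which `R p q`. -/
theorem result (k : ℕ) (ε : ℝ) (hε : 0 < ε) :
    ∃ w₀ : ℕ, ∀ w : ℕ, w₀ ≤ w → ∃ δ : ℝ, 0 < δ ∧ ∃ X₀ : ℕ, ∀ X : ℕ, X₀ ≤ X → ∀ R : ℕ → ℕ → Prop,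
      (∀ P : Finset ℕ, (∀ p ∈ P, p.Prime ∧ p ≤ 2 * X) → P.card = k → ∃ p ∈ P, ∃ q ∈ P, p < q ∧ R p q) →
      ({n : ℕ | (1 ≤ n ∧ n ≤ X ∧ ∀ p : ℕ, p.Prime → p ≤ w → ¬ p ∣ n) ∧
        ({p : ℕ | p < n ∧ p.Prime ∧ (2 * n - p).Prime ∧ R p (2 * n - p)}.ncard : ℝ) <
          δ * X / Real.log X ^ 2}.ncard : ℝ) ≤
      ε * {n : ℕ | 1 ≤ n ∧ n ≤ X ∧ ∀ p : ℕ, p.Prime → p ≤ w → ¬ p ∣ n}.ncard := by
  classical
  obtain ⟨w₀, h⟩ := Pool.Agent.H563.RC.finalR k ε hε
  refine ⟨w₀, fun w hw => ?_⟩
  obtain ⟨δ, hδ, X₀, h⟩ := h w hw
  refine ⟨δ, hδ, X₀, fun X hX R hR => ?_⟩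
  have h1 := h X hX R hR
  have e1 : {n : ℕ | 1 ≤ n ∧ n ≤ X ∧ ∀ p : ℕ, p.Prime → p ≤ w → ¬ p ∣ n} = ((rough w X : Finset ℕ) : Set ℕ) := by
    ext n
    rw [Set.mem_ofPred_eq, Finset.mem_coe, mem_rough, and_assoc]
  have e2 : ∀ n : ℕ, {p : ℕ | p < n ∧ p.Prime ∧ (2 * n - p).Prime ∧ R p (2 * n - p)}.ncard = repsR R n := by
    intro n
    unfold repsR
    rw [← Set.ncard_coe_finset]
    congr 1
    ext p
    rw [Set.mem_ofPred_eq, Finset.mem_coe, Finset.mem_filter, Finset.mem_range]
  have e3 : {n : ℕ | (1 ≤ n ∧ n ≤ X ∧ ∀ p : ℕ, p.Prime → p ≤ w → ¬ p ∣ n) ∧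
        ({p : ℕ | p < n ∧ p.Prime ∧ (2 * n - p).Prime ∧ R p (2 * n - p)}.ncard : ℝ) <
          δ * X / Real.log X ^ 2} =
      (((rough w X).filter (fun n => (repsR R n : ℝ) < δ * X / Real.log X ^ 2) : Finset ℕ) : Set ℕ) := by
    ext n
    rw [Set.mem_ofPred_eq, Finset.mem_coe, Finset.mem_filter, mem_rough, e2]
    tauto
  rw [e1, e3, Set.ncard_coe_finset, Set.ncard_coe_finset]
  exact h1

end Pool.Agent.Results.MP_7b7e48_nt.GraphsOnPrimes
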