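import Mathlib
import Pool.Agent.H251.MY.FinUG
import Pool.Agent.H251.MY.Fac
import Pool.Agent.H985.Cor.Base

/-!
# Clusters of primes `p` such that all the `H - p` have prescribed parity, for every target `H`

Goldbach's problem over `F_q[X]`, `q` even: `H = p + f` with `p`, `f` monic of degree `n`, `p` a
prime, for every `H ≠ 0` of degree less than `n` without congruence obstruction (`q > 2`, or
`X (X + 1) ∣ H`).  There is a `B` such that for every `m` there are `C, r` such that for large `n`,
*every* such `H` and every sign `σ`, at least `c q ^ n / n ^ C` monic `f` of degree `n` have at least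
`m` primes `p = f + h`, `deg h ≤ B (m + 1)`, such that `H - p` is a product of at most `r` primes of degree at least
`n / (r + 1)`, of an odd number of primes if `σ = -1`, of an even number if `σ = 1`.

For the authors of the parts see `MP_8923e7_nt.MaynardTaoParity`; this deduction: helper297
(for fixed `m`), helper524 (windows of size `B (m + 1)`).
-/

namespace Pool.Agent.Results.MP_7b7e48_nt.PrimeClustersEveryTarget

open Polynomial

open Classical in
/-- The Möbius function of `K[X]`: `(-1) ^ k` if `F` is a nonzero constant times a product of `k`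
distinct monic irreducible polynomials, and `0` for all other `F`. -/
noncomputable def moebius {K : Type} [Field K] (F : K[X]) : ℤ :=
  if Squarefree F then (-1) ^ Multiset.card (UniqueFactorizationMonoid.factors F) else 0

/-- The number of irreducible factors of `F`, counted with multiplicity. -/
noncomputable def numFactors {K : Type} [Field K] (F : K[X]) : ℕ :=
  Multiset.card (UniqueFactorizationMonoid.factors F)

/-- There is no congruence obstruction for `H`: no irreducible polynomial divides `x (H - x)` for all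
`x`. -/
def Admissible {K : Type} [Field K] (H : K[X]) : Prop :=
  ∀ P : K[X], Irreducible P → ∃ x : K[X], ¬ P ∣ x ∧ ¬ P ∣ H - x

/-- **Clusters of primes for every Goldbach target, with prescribed parity, `q` even.** -/
theorem result (K : Type) [Field K] [Fintype K] (hK : Even (Fintype.card K)) :
    ∃ B : ℕ, ∀ m : ℕ, ∃ (C r : ℕ) (c : ℝ) (N : ℕ), 0 < c ∧ ∀ n : ℕ, N ≤ n → ∀ H : K[X], H ≠ 0 →
      H.natDegree < n → Admissible H → ∀ σ : ℤ, (σ = 1 ∨ σ = -1) →
      c * (Fintype.card K : ℝ) ^ n / (n : ℝ) ^ C ≤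
        ({f : K[X] | f.Monic ∧ f.natDegree = n ∧
          m ≤ {h : K[X] | h.natDegree ≤ B * (m + 1) ∧ Irreducible (f + h) ∧
            moebius (H - (f + h)) = σ ∧ numFactors (H - (f + h)) ≤ r ∧
            ∀ P : K[X], Irreducible P → P ∣ H - (f + h) →
              n ≤ (r + 1) * P.natDegree}.ncard}.ncard : ℝ) := by
  classical
  have := Pool.Agent.H985.Cor.charTwo_of_even hK
  have hneg : ∀ x y : K[X], x - y = y + x := fun x y => by
    rw [CharTwo.sub_eq_add, add_comm]
  obtain ⟨B₀, H0⟩ := Pool.Agent.H251.MY.s_goluq K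
  refine ⟨B₀, fun m => ?_⟩
  obtain ⟨C, δ, c, n₀, hδ, hc, H1⟩ := H0 m
  obtain ⟨r, hr⟩ := exists_nat_ge (1 / δ)
  obtain ⟨B, hB⟩ : ∃ B : ℕ, B = B₀ * (m + 1) := ⟨_, rfl⟩
  rw [← hB] at H1 ⊢
  refine ⟨C, r, c, n₀ + B + 1, hc, fun n hn H hH hHd hadm σ hσ => ?_⟩
  have h1 := H1 n (by omega) H hH hHd (fun P hP => by
    obtain ⟨x, hx1, hx2⟩ := hadm P hP
    refine ⟨x, hx1, ?_⟩
    rwa [hneg] at hx2) σ hσ
  refine h1.trans ?_
  have hfin : {f : K[X] | f.Monic ∧ f.natDegree = n ∧
          m ≤ {h : K[X] | h.natDegree ≤ B ∧ Irreducible (f + h) ∧ moebius (H - (f + h)) = σ ∧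
            numFactors (H - (f + h)) ≤ r ∧
            ∀ P : K[X], Irreducible P → P ∣ H - (f + h) →
              n ≤ (r + 1) * P.natDegree}.ncard}.Finite := by
    refine (Pool.Agent.H694.Typ.Mn K n).finite_toSet.subset fun f hf => ?_
    rw [Finset.mem_coe, Pool.Agent.H694.Typ.mem_Mn]
    exact ⟨hf.1, hf.2.1⟩
  refine Nat.cast_le.2 ?_
  rw [← Set.ncard_coe_finset]
  refine Set.ncard_le_ncard (fun f hf => ?_) hfin
  rw [Finset.mem_coe, Finset.mem_filter, Pool.Agent.H694.Typ.mem_Mn] at hf
  obtain ⟨⟨hf1, hf2⟩, hf3⟩ := hf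
  refine ⟨hf1, hf2, hf3.trans (Set.ncard_le_ncard ?_ ?_)⟩
  · rintro h ⟨h1, h2, h3, h4⟩
    have hlt : h.natDegree < f.natDegree := by rw [hf2]; omega
    have hd1 : (f + h).natDegree = n := by
      rw [natDegree_add_eq_left_of_natDegree_lt hlt, hf2]
    have hd2 : (f + h + H).natDegree = n := by
      rw [natDegree_add_eq_left_of_natDegree_lt (by rw [hd1]; omega), hd1]
    have hne : f + h + H ≠ 0 := by
      intro h0
      rw [h0, natDegree_zero] at hd2
      omega
    have hP : ∀ P : K[X], Irreducible P → P ∣ f + h + H → n ≤ r * P.natDegree :=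
      fun P hP hd => Pool.Agent.H251.MY.rough_nat hδ hr (h4 P hP hd)
    refine ⟨h1, h2, ?_, ?_, ?_⟩
    · rw [hneg]
      exact h3
    · rw [hneg]
      exact Pool.Agent.H251.MY.fac_le (by omega) hne hd2 hP
    · intro P hP1 hP2
      rw [hneg] at hP2
      exact (hP P hP1 hP2).trans (Nat.mul_le_mul_right _ (Nat.le_succ r))
  · refine (Pool.Agent.H251.MY.PropQ.fin_deg (K := K) (B + 1)).subset fun h hh => ?_
    refine lt_of_le_of_lt degree_le_natDegree ?_
    have := hh.1
    exact_mod_cast Nat.lt_succ_of_le this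

end Pool.Agent.Results.MP_7b7e48_nt.PrimeClustersEveryTarget
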