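import Mathlib
import Pool.Agent.H536.OC.C21
import Pool.Agent.H536.OC.SGold2

/-!
# `N = p + P₃` with `p` in every residue class of every modulus up to `N ^ δ`

For every large even `N`, EVERY modulus `q ≤ N ^ δ` (there is no exceptional modulus: Siegel zeros are allowed) and
EVERY residue class `b` mod `q` with `(b, q) = (N - b, q) = 1` there are at least `N ^ 0.97` primes `p ≡ b (mod q)`,
`N ^ 0.97 ≤ p < N / 2`, for which `N - p` has at most three prime factors, counted with multiplicity, all of them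
larger than `N ^ 0.11`.
-/

namespace Pool.Agent.Results.MP_7b7e48_nt.PrimePlusP3AllLargeModuli

theorem result : ∃ δ : ℝ, 0 < δ ∧ ∃ N0 : ℕ, ∀ N : ℕ, N0 ≤ N → Even N → ∀ q b : ℕ, 1 ≤ q → (q : ℝ) ≤ (N : ℝ) ^ δ →
    b.Coprime q → (((N : ℤ) - b).gcd q = 1) → ∃ S : Finset ℕ, (N : ℝ) ^ (97 / 100 : ℝ) ≤ S.card ∧
    ∀ p ∈ S, p.Prime ∧ p ≡ b [MOD q] ∧ (N : ℝ) ^ (97 / 100 : ℝ) ≤ p ∧ 2 * p < N ∧
      ArithmeticFunction.cardFactors (N - p) ≤ 3 ∧ ∀ l : ℕ, l.Prime → l ∣ N - p → (N : ℝ) ^ (11 / 100 : ℝ) < l :=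
  Pool.Agent.H536.OC.gold2 Pool.Agent.H536.OC.U3c

end Pool.Agent.Results.MP_7b7e48_nt.PrimePlusP3AllLargeModuli
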